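import Pool.Agent.W888.DX.Main

set_option autoImplicit false

/-!
# Branch-and-cut with semidefinite bounds for `d`-to-1 games of perfect semidefinite value

The definitions used in the statement are in `Pool/Agent/W888/DX/Tree.lean` and
`Pool/Agent/W888/DX/Law.lean` (`BasicSdp` is in `Pool/Agent/H562R2/PerfectSdp.lean`):

* `Relax v w π ε`: the points `μ` (a number for every vertex and label) which are the squared lengths
  of the vectors of a solution of the basic semidefinite relaxation of the game with the edges
  `(v e, w e)` and the constraints `label of v e = π e (label of w e)`, of value at least `1 - ε`;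
* `lab L M`: the indicator vector of a labelling;
* `Tree`: branch-and-cut trees; `Tree.leaves`: the number of leaves; `Tree.Proves`: at every leaf no
  point of the relaxation satisfies all the branches above it;
* `SplitProof`: cutting-plane proofs with split cuts, as lists of cuts.

A node of a tree branches on an integer disjunction (`c ≤ b` or `c ≥ b + 1`, integral `c`, `b`) or
on a real one (`c < b` or `c ≥ b`, arbitrary real `c`, `b`); the latter make it possible to derive
and use cuts.
-/

namespace Pool.Agent.Results.MP_62e2f2_lc.BranchAndCut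

open Finset Pool.Agent.W888 Pool.Agent.W888.DX

/-- (1) If the uniform point (`1 / |B|` for the labels of the left and `1 / |A|` for those of the
right vertices) belongs to the relaxation for `ε` and all degrees are at most `Δ`, then every
branch-and-cut proof that the value is less than `1 - ε - η` has at least
`exp (η ^ 3 |E| / (32 |A| |B| Δ))` leaves.

(2) For `d = 2 ^ j`, `j ≥ 1`, and every `δ > 0` there are `R = 2 ^ m`, `n`, `Δ` and `γ > 0` such
that for all `c ≥ 1` there is a `d`-to-1 game with `N = c n` vertices, `R` left and `d R` right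
labels, all fibres of size `d`, degrees at most `Δ` and value at most `δ`, for which the relaxation
has a solution of value one (with the uniform point), and for all `0 < η ≤ 1`: every list of convex
sets which cover all labellings and contain no point of the relaxation for `η` has at least
`exp (γ η ^ 3 N)` members, every branch-and-cut proof that the value is less than `1 - η` has at
least `exp (γ η ^ 3 N)` leaves, and every proof with `L` split cuts has
`2 L + 1 ≥ exp (γ η ^ 3 N)`; branch-and-cut proofs exist if `δ < 1 - η`. -/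
theorem result :
    (∀ (V W E A B : Type) [Fintype V] [Fintype W] [Fintype E] [Fintype A] [Fintype B]
      [DecidableEq V] [DecidableEq W] [Nonempty A] [Nonempty B] (v : E → V) (w : E → W)
      (π : E → A → B) (Δ : ℕ) (ε η : ℝ), 0 < Δ →
      (∀ u, (univ.filter fun e => v e = u).card ≤ Δ) →
      (∀ u, (univ.filter fun e => w e = u).card ≤ Δ) → 0 ≤ ε → 0 < η → η ≤ 1 →
      (Sum.elim (fun _ => 1 / (Fintype.card B : ℝ)) (fun _ => 1 / (Fintype.card A : ℝ)) :
        (V × B) ⊕ (W × A) → ℝ) ∈ Relax v w π ε →
      ∀ T : DX.Tree ((V × B) ⊕ (W × A)), T.Proves (Relax v w π (ε + η)) Set.univ →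
        Real.exp (η ^ 3 * Fintype.card E / (32 * (Fintype.card A * Fintype.card B) * Δ)) ≤
          T.leaves) ∧
    (∀ j : ℕ, 1 ≤ j → ∀ δ : ℝ, 0 < δ →
      ∃ (m n Δ : ℕ) (γ : ℝ), 0 < n ∧ 0 < γ ∧ ∀ c : ℕ, 1 ≤ c →
        ∃ (V W E A B : Type) (_ : Fintype V) (_ : Fintype W) (_ : Fintype E) (_ : Nonempty E)
          (_ : Fintype A) (_ : Fintype B) (_ : DecidableEq V) (_ : DecidableEq W)
          (_ : DecidableEq B) (v : E → V) (w : E → W) (π : E → A → B),
          Fintype.card B = 2 ^ m ∧ Fintype.card A = 2 ^ j * 2 ^ m ∧
          Fintype.card V + Fintype.card W = c * n ∧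
          (∀ u, (univ.filter fun e => v e = u).card ≤ Δ) ∧
          (∀ u, (univ.filter fun e => w e = u).card ≤ Δ) ∧
          (∀ e b, (univ.filter fun a => π e a = b).card = 2 ^ j) ∧
          (∀ (M : W → A) (L : V → B), ((univ.filter fun e =>
            π e (M (w e)) = L (v e)).card : ℝ) ≤ δ * Fintype.card E) ∧
          (Sum.elim (fun _ => 1 / (Fintype.card B : ℝ)) (fun _ => 1 / (Fintype.card A : ℝ)) :
            (V × B) ⊕ (W × A) → ℝ) ∈ Relax v w π 0 ∧
          ∀ η : ℝ, 0 < η → η ≤ 1 →
            (∀ F : List (Set ((V × B) ⊕ (W × A) → ℝ)), (∀ C ∈ F, Convex ℝ C) →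
              (∀ C ∈ F, ∀ μ ∈ C, μ ∉ Relax v w π η) →
              (∀ (L : V → B) (M : W → A), ∃ C ∈ F, lab L M ∈ C) →
              Real.exp (γ * η ^ 3 * (c * n)) ≤ F.length) ∧
            (∀ T : DX.Tree ((V × B) ⊕ (W × A)), T.Proves (Relax v w π η) Set.univ →
              Real.exp (γ * η ^ 3 * (c * n)) ≤ T.leaves) ∧
            (∀ l, SplitProof (Relax v w π η) l Set.univ →
              Real.exp (γ * η ^ 3 * (c * n)) ≤ 2 * l.length + 1) ∧
            (δ < 1 - η → ∃ T : DX.Tree ((V × B) ⊕ (W × A)),
              T.Proves (Relax v w π η) Set.univ)) := by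
  refine ⟨?_, fun j hj δ hδ => main j hj δ hδ⟩
  intro V W E A B _ _ _ _ _ _ _ _ _ v w π Δ ε η hΔ hs ht hε hη hη1 h T hT
  exact law_tree v w π Δ hΔ hs ht ε η hε hη hη1 h T hT

end Pool.Agent.Results.MP_62e2f2_lc.BranchAndCut
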