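import Pool.Agent.W953.DG.Low

/-!
# d-to-1 games with few and with many numbers of edges

A d-to-1 game with `N` vertices on each side, left labels `[R]` and right labels `[d R]` is given by
`N ^ 2 * R ^ (d R)` bits that say for all `v`, `w`, `π` whether `v` and `w` are adjacent with the
constraint `π`. `Easy d R ε` says that circuits of polynomial size tell the games of value less than
`ε` from those of value one, and `EasyOn d R ε t W` that this can be done by such circuits with at
most `t N` NOT gates which, for every `a`, have to be right only on the games with at least `a` and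
less than `a + W N` edges.

Here it is shown that `EasyOn d R ε t W` and `Easy d R ε` are equivalent if `1 ≤ W ≤ 2 ^ t`, and that
for all `d ≥ 2`, `ε > 0` and a suitable `R` there are no such circuits without NOT gates if
`W ≥ N ^ c`, `c > 0`.
-/

set_option autoImplicit false

namespace Pool.Agent.Results.MP_62e2f2_lc.EdgeCountWindows

open Filter Pool.Agent.W953.DG
open Pool.Agent (H540R2.Circuit)

/-- (1) If `1 ≤ W N ≤ 2 ^ t N` then `EasyOn d R ε t W` is equivalent to `Easy d R ε`. For all `d ≥ 2`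
and `ε > 0` there is `R ≥ 1` such that: (2) if `N ≤ W N ^ b` for a constant `b` and infinitely many
`N` then `EasyOn d R ε 0 W` is false; (3) for `N' ≤ N` large and `N' ^ 2 < W`, a circuit without NOT
gates that is right on all games with `N` vertices on each side and less than `W` edges has at least
`(2 ^ (N' ^ (1 / 14)) - 1) / 3` gates. -/
theorem result :
    (∀ (d R : ℕ) (ε : ℝ) (t W : ℕ → ℕ), (∀ N, 1 ≤ W N ∧ W N ≤ 2 ^ t N) →
      (EasyOn d R ε t W ↔ Easy d R ε)) ∧
    (∀ d : ℕ, 2 ≤ d → ∀ ε : ℝ, 0 < ε → ∃ R : ℕ, 1 ≤ R ∧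
      (∀ (W : ℕ → ℕ) (b : ℕ), (∃ᶠ N : ℕ in atTop, N ≤ W N ^ b) →
        ¬ EasyOn d R ε (fun _ => 0) W) ∧
      ∃ N0 : ℕ, ∀ N' N W : ℕ, N0 ≤ N' → N' ≤ N → N' ^ 2 < W →
        ∀ D : H540R2.Circuit (bits N d R), D.nots = 0 → (∀ I, edges I < W → Right ε D I) →
        (2 : ℝ) ^ ((N' : ℝ) ^ (1 / 14 : ℝ)) ≤ 3 * D.size + 1) := by
  refine ⟨easy_iff, fun d hd ε hε => ?_⟩
  obtain ⟨R, hR, N0, h⟩ := low d hd ε hε
  exact ⟨R, hR, fun W b hW => not_on h W b hW, N0, h⟩

end Pool.Agent.Results.MP_62e2f2_lc.EdgeCountWindows
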