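import Pool.Agent.W896.FD.Games

/-!
# Satisfiable d-to-1 games need many reads or much memory

A game with `n` questions on each side, answers `Bool × Fin d` (so `2 d` answers) on the left side
and two answers on the right side is given by a table of relations. We consider `d`-to-1 games: for
each pair of questions there is no constraint, or the constraint is a map of the left answers to the
right answers with preimages of size `d`. Boolean circuits with AND gates of fan-in two, OR gates of
any fan-in and negations at the inputs have to distinguish satisfiable games (value one, perfect
completeness) from games in which all answers violate more than `n / D` constraints. (The constraint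
graphs of the hard games have at most `2 n` edges, so that this is a constant fraction of the
constraints. The value of the circuits is arbitrary for the other tables.)

Such a circuit accepts if and only if it has a proof tree all of whose leaves are true literals; the
formal degree in an input bit is the largest number of leaves with this bit, that is, the number of
times this bit is read. Nondeterministic, in particular deterministic, branching programs are such
circuits (the logarithm of the size is the memory), and so are programs with a stack. There is no
bound on the time.

We show that these circuits have size `2 ^ Ω (n)` if the formal degrees in the bits of the diagonal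
constraints `(v, v)` sum up to `O (n)`; all other bits may be read without any limit. The statement
remains true for circuits with one-sided randomness.

The hard games: a random matching of (half of) the questions; for two matched indices `v, w` the
constraints `(v, w)` and `(w, v)` say that the two answers agree, and the free bits say whether
the answers to `(v, v)` and to `(w, w)` agree or differ; the four constraints are satisfiable if
and only if the two bits are equal.
-/

set_option autoImplicit false

namespace Pool.Agent.Results.MP_62e2f2_lc.FormalDegree

open Pool.Agent.W896.RK Pool.Agent.W896.FD Pool.Agent.W896.FD.Games

/-- `IsGame x` says that `x` is the table of a `d`-to-1 game (with `n` questions on each side, `2 d`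
answers on the left side, two answers on the right side); `Viol t x` says that some answers violate
at most `t` constraints. Let `d > 0` and let `U r` (`r` in a finite nonempty set) be circuits such
that the `d`-to-1 games which are accepted by a `U r` have `Viol ⌊n / 2 ^ (120 (k + 1))⌋`, and each
satisfiable `d`-to-1 game is accepted by at least a `2 ^ (- ⌊n / 2 ^ (60 (k + 1))⌋)` fraction of
them. If in each `U r` the formal degrees in the bits of the constraints `(v, v)` sum up to at most
`k n`, then some `U r` has `g` gates with `n ≤ 2 ^ (60 (k + 1)) (⌊log₂ g⌋ + 1)`. -/
theorem result (k n d : ℕ) (hd : 0 < d) (R : Type) [Fintype R] [Nonempty R]
    (U : R → Circ ((Fin n × Fin n) × ((Bool × Fin d) × Bool)))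
    (hU : ∀ r x, IsGame x → (U r).Val x (U r).out → Viol (n / 2 ^ (120 * (k + 1))) x)
    (hc : ∀ x : (Fin n × Fin n) × ((Bool × Fin d) × Bool) → Bool, IsGame x → Viol 0 x →
      Nat.card R ≤ 2 ^ (n / 2 ^ (60 * (k + 1))) * Nat.card {r // (U r).Val x (U r).out})
    (hdeg : ∀ r, ∃ f : (U r).G → (Fin n × Fin n) × ((Bool × Fin d) × Bool) → ℕ,
      IsDeg (U r) id f ∧ ∑ v, ∑ y, f (U r).out ((v, v), y) ≤ k * n) :
    ∃ r, n ≤ 2 ^ (60 * (k + 1)) * (Nat.log 2 (Fintype.card (U r).G) + 1) :=
  games_main k n d hd R U hU hc hdeg

end Pool.Agent.Results.MP_62e2f2_lc.FormalDegree
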